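import Pool.Agent.Y560.TF.Stm

/-!
Project TF: labels and classes under back-and-forth equivalences and isomorphisms (TRQ), and
measurability of labels and classes (MQ).
-/

set_option autoImplicit false
set_option linter.all false

namespace Pool.Agent.Y239.TF

open Set MeasureTheory
open Pool.Agent.H899R2.VP (St Adj PIso BF IsoOn idOn inv comp zipSet BF_iff BF_of_total)
open Pool.Agent.H533R2.VO (RS lift put OS Ic RIso Dich VC BlkV S_FINAL)
open Pool.Agent.H566P (ar R2 v2 a0 a1 lt ac co mk S_ACC S_MSG)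
open Pool.Agent.Y560.TG (acc msg lt_mk ac_mk co_mk R2_ext piso_iff riso_iff riso_isoOn meas_lt
  meas_ac meas_co meas_into cont_into piso_lt piso_ac piso_co piso_eq ex lt_ex ac_ex co_ex_even
  co_ex_odd piso_ex orb orb_ex Nm Off Sm Thin Few bf_trans0 bf_symm0 iso_trans0 iso_symm0
  iso_refl0 S_EXT S_GL S_MAT S_BP mat pick Se)
open Pool.Agent.Y560.TF

/-! ### Labels -/

theorem qf {R R' : R2} {q : Set (ℕ × ℕ)} {y y' v v' m : ℕ}
    (h : BF (lift R) (lift R') univ univ 3 q) (hy : (y, y') ∈ q) (hv : (v, v') ∈ q)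
    (H : Q R y m v) : Q R' y' m v' := by
  obtain ⟨k, rfl | rfl | rfl | ⟨i, j, rfl⟩⟩ := idx4 m
  · rw [Q0] at H ⊢
    obtain ⟨z, h1, h2⟩ := H
    obtain ⟨z', -, hb⟩ := h.forth (o' := 2) (by norm_num) (mem_univ z)
    have hp := hb.piso
    have ez : (z, z') ∈ insert (z, z') q := mem_insert _ _
    exact ⟨z', (piso_ac hp (mem_insert_of_mem _ hy) ez).1 h1,
      (piso_le hp ez (mem_insert_of_mem _ hv)).1 h2⟩
  · rw [Q1] at H ⊢
    obtain ⟨z, h1, h2⟩ := H
    obtain ⟨z', -, hb⟩ := h.forth (o' := 2) (by norm_num) (mem_univ z)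
    have hp := hb.piso
    have ez : (z, z') ∈ insert (z, z') q := mem_insert _ _
    exact ⟨z', (piso_ac hp (mem_insert_of_mem _ hy) ez).1 h1,
      (piso_le hp (mem_insert_of_mem _ hv) ez).1 h2⟩
  · rw [Q2] at H ⊢
    obtain ⟨z, r, h1, h2, h3⟩ := H
    obtain ⟨z', -, hb⟩ := h.forth (o' := 2) (by norm_num) (mem_univ z)
    obtain ⟨r', -, hc⟩ := hb.forth (o' := 1) (by norm_num) (mem_univ r)
    have hp := hc.piso
    have e1 : ∀ {a : ℕ × ℕ}, a ∈ q → a ∈ insert (r, r') (insert (z, z') q) := fun ha =>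
      mem_insert_of_mem _ (mem_insert_of_mem _ ha)
    have ez : (z, z') ∈ insert (r, r') (insert (z, z') q) :=
      mem_insert_of_mem _ (mem_insert _ _)
    have er : (r, r') ∈ insert (r, r') (insert (z, z') q) := mem_insert _ _
    exact ⟨z', r', (piso_ac hp (e1 hy) ez).1 h1, (piso_le hp er (e1 hv)).1 h2,
      (piso_le hp er ez).1 h3⟩
  · rw [Q3] at H ⊢
    obtain ⟨z, w, r, h1, h2, h3, h4, h5⟩ := H
    obtain ⟨z', -, hb⟩ := h.forth (o' := 2) (by norm_num) (mem_univ z)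
    obtain ⟨w', -, hc⟩ := hb.forth (o' := 1) (by norm_num) (mem_univ w)
    obtain ⟨r', -, hd⟩ := hc.forth (o' := 0) (by norm_num) (mem_univ r)
    have hp := hd.piso
    have e1 : ∀ {a : ℕ × ℕ}, a ∈ q → a ∈ insert (r, r') (insert (w, w') (insert (z, z') q)) :=
      fun ha => mem_insert_of_mem _ (mem_insert_of_mem _ (mem_insert_of_mem _ ha))
    have ez : (z, z') ∈ insert (r, r') (insert (w, w') (insert (z, z') q)) :=
      mem_insert_of_mem _ (mem_insert_of_mem _ (mem_insert _ _))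
    have ew : (w, w') ∈ insert (r, r') (insert (w, w') (insert (z, z') q)) :=
      mem_insert_of_mem _ (mem_insert _ _)
    have er : (r, r') ∈ insert (r, r') (insert (w, w') (insert (z, z') q)) := mem_insert _ _
    exact ⟨z', w', r', (piso_ac hp (e1 hy) ez).1 h1, (piso_ac hp (e1 hy) ew).1 h2,
      (piso_le hp er (e1 hv)).1 h3, (piso_le hp er ez).1 h4,
      fun h => h5 ((piso_le hp er ew).2 h)⟩

theorem q3 {R R' : R2} {q : Set (ℕ × ℕ)} {y y' v v' m : ℕ}
    (h : BF (lift R) (lift R') univ univ 3 q) (hy : (y, y') ∈ q) (hv : (v, v') ∈ q) :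
    Q R y m v ↔ Q R' y' m v' :=
  ⟨qf h hy hv, qf h.symm (q := inv q) hy hv⟩

theorem sl3 {R R' : R2} {q : Set (ℕ × ℕ)} {u u' z z' w w' : ℕ}
    (h : BF (lift R) (lift R') univ univ 3 q) (hu : (u, u') ∈ q) (hz : (z, z') ∈ q)
    (hw : (w, w') ∈ q) : sl R u z w ↔ sl R' u' z' w' := by
  unfold sl
  refine forall_congr' fun m => ?_
  rw [q3 h hu hz, q3 h hu hw]

theorem duf {R R' : R2} {q : Set (ℕ × ℕ)} {u u' s s' : ℕ}
    (h : BF (lift R) (lift R') univ univ 1 q) (hu : (u, u') ∈ q) (hs : (s, s') ∈ q)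
    (H : Du R u s) : Du R' u' s' := by
  obtain ⟨n, z, h1, h2⟩ := H
  obtain ⟨z', -, hb⟩ := h.forth (o' := 0) (by norm_num) (mem_univ z)
  have hp := hb.piso
  have ez : (z, z') ∈ insert (z, z') q := mem_insert _ _
  exact ⟨n, z', (piso_ac hp (mem_insert_of_mem _ hu) ez).1 h1,
    (piso_le hp (mem_insert_of_mem _ hs) ez).1 h2⟩

theorem du1 {R R' : R2} {q : Set (ℕ × ℕ)} {u u' s s' : ℕ}
    (h : BF (lift R) (lift R') univ univ 1 q) (hu : (u, u') ∈ q) (hs : (s, s') ∈ q) :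
    Du R u s ↔ Du R' u' s' :=
  ⟨duf h hu hs, duf h.symm (q := inv q) hu hs⟩

theorem inf' {R R' : R2} {q : Set (ℕ × ℕ)} {u u' s s' x x' : ℕ}
    (h : BF (lift R) (lift R') univ univ 5 q) (hu : (u, u') ∈ q) (hs : (s, s') ∈ q)
    (hx : (x, x') ∈ q) (H : In R u s x) : In R' u' s' x' := by
  obtain ⟨n, m, z, w, h1, h2, h3, h4, h5⟩ := H
  obtain ⟨z', -, hb⟩ := h.forth (o' := 4) (by norm_num) (mem_univ z)
  obtain ⟨w', -, hc⟩ := hb.forth (o' := 3) (by norm_num) (mem_univ w)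
  have hp := hc.piso
  have e1 : ∀ {a : ℕ × ℕ}, a ∈ q → a ∈ insert (w, w') (insert (z, z') q) := fun ha =>
    mem_insert_of_mem _ (mem_insert_of_mem _ ha)
  have ez : (z, z') ∈ insert (w, w') (insert (z, z') q) :=
    mem_insert_of_mem _ (mem_insert _ _)
  have ew : (w, w') ∈ insert (w, w') (insert (z, z') q) := mem_insert _ _
  exact ⟨n, m, z', w', (piso_ac hp (e1 hs) ez).1 h1, (piso_ac hp (e1 hs) ew).1 h2,
    (sl3 hc (e1 hu) ez ew).1 h3, (piso_le hp ez (e1 hx)).1 h4,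
    fun h => h5 ((piso_le hp ew (e1 hx)).2 h)⟩

theorem obf {R R' : R2} {q : Set (ℕ × ℕ)} {u u' v v' t t' : ℕ}
    (h : BF (lift R) (lift R') univ univ 8 q) (hu : (u, u') ∈ q) (hv : (v, v') ∈ q)
    (ht : (t, t') ∈ q) (H : t ∈ Ob R u v) : t' ∈ Ob R' u' v' := by
  rw [mem_Ob] at H ⊢
  rcases H with ⟨n, hn⟩ | ⟨n, z, r, h1, h2, h3, h4⟩ | ⟨s, h1, h2, h3⟩
  · exact Or.inl ⟨n, (piso_ac h.piso hv ht).1 hn⟩
  · refine Or.inr (Or.inl ?_)
    obtain ⟨z', -, hb⟩ := h.forth (o' := 7) (by norm_num) (mem_univ z)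
    obtain ⟨r', -, hc⟩ := hb.forth (o' := 6) (by norm_num) (mem_univ r)
    have hp := hc.piso
    have e1 : ∀ {a : ℕ × ℕ}, a ∈ q → a ∈ insert (r, r') (insert (z, z') q) := fun ha =>
      mem_insert_of_mem _ (mem_insert_of_mem _ ha)
    have ez : (z, z') ∈ insert (r, r') (insert (z, z') q) :=
      mem_insert_of_mem _ (mem_insert _ _)
    have er : (r, r') ∈ insert (r, r') (insert (z, z') q) := mem_insert _ _
    exact ⟨n, z', r', (piso_ac hp (e1 hv) ez).1 h1, (piso_le hp er ez).1 h2,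
      (piso_le hp er (e1 ht)).1 h3,
      fun h => h4 ((du1 (hc.mono (by norm_num)) (e1 hu) er).2 h)⟩
  · refine Or.inr (Or.inr ?_)
    obtain ⟨s', -, hb⟩ := h.forth (o' := 7) (by norm_num) (mem_univ s)
    have e1 : ∀ {a : ℕ × ℕ}, a ∈ q → a ∈ insert (s, s') q := fun ha => mem_insert_of_mem _ ha
    have es : (s, s') ∈ insert (s, s') q := mem_insert _ _
    exact ⟨s', (du1 (hb.mono (by norm_num)) (e1 hu) es).1 h1,
      inf' (hb.mono (by norm_num)) (e1 hu) es (e1 hv) h2,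
      inf' (hb.mono (by norm_num)) (e1 hu) es (e1 ht) h3⟩

theorem ob8 {R R' : R2} {q : Set (ℕ × ℕ)} {u u' v v' t t' : ℕ}
    (h : BF (lift R) (lift R') univ univ 8 q) (hu : (u, u') ∈ q) (hv : (v, v') ∈ q)
    (ht : (t, t') ∈ q) : t ∈ Ob R u v ↔ t' ∈ Ob R' u' v' :=
  ⟨obf h hu hv ht, obf h.symm (q := inv q) hu hv ht⟩

theorem piso_lb {R R' : R2} {q s : Set (ℕ × ℕ)} {u u' : ℕ}
    (h : BF (lift R) (lift R') univ univ 3 q) (hu : (u, u') ∈ q) (hs : s ⊆ q) :
    PIso (lift (lb R u)) (lift (lb R' u')) s := by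
  unfold lb
  rw [piso_ex]
  exact ⟨h.piso.mono hs, fun k w hw => q3 h hu (hs hw)⟩

theorem nat_add {n : ℕ} {o : Ordinal.{0}} (ho : Ordinal.omega0 ≤ o) : (n : Ordinal.{0}) + o = o :=
  Ordinal.natCast_add_of_omega0_le ho n

theorem t_TRQ (hE : S_EXT) : S_TRQ := by
  refine ⟨?_, ?_, ?_, ?_, ?_, ?_, ?_⟩
  · intro R R' q y y' v v' m h hy hv
    exact q3 h hy hv
  · intro R R' q u u' v v' t t' h hu hv ht
    exact ob8 h hu hv ht
  · intro R R' p u u' v v' o ho h hu hv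
    have h3 : ((8 : ℕ) : Ordinal.{0}) + o = o := nat_add ho
    have := hE R R' (lb R u) (lb R' u') univ univ (Ob R u v) (Ob R' u' v') p ∅ ((8 : ℕ))
      (subset_univ _) (subset_univ _) (fun q hq hb => ?_) o (by rw [h3]; exact h)
    · rwa [union_empty] at this
    · refine ⟨?_, fun w hw => ?_⟩
      · rw [union_empty]
        exact piso_lb (hb.mono (by norm_num)) (hq hu) fun w hw => hw.1
      · exact ob8 (hb.mono (by norm_num)) (hq hu) (hq hv) hw
  · intro R R' p u u' v v' h hu hv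
    obtain ⟨q, h1, h2, h3, h4, h5⟩ := h
    have hb : ∀ o, BF (lift R) (lift R') univ univ o q := fun o => BF_of_total h2 h3 h4 h5
    have hob : ∀ w ∈ q, (w.1 ∈ Ob R u v ↔ w.2 ∈ Ob R' u' v') := fun w hw =>
      ob8 (hb 8) (h1 hu) (h1 hv) hw
    refine ⟨{w | w ∈ q ∧ w.1 ∈ Ob R u v}, ?_, ?_, ?_, ?_, ?_⟩
    · exact fun w hw => ⟨h1 hw.1, hw.2⟩
    · exact fun w hw => ⟨hw.2, (hob w hw.1).1 hw.2⟩
    · exact piso_lb (hb 3) (h1 hu) fun w hw => hw.1
    · intro x hx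
      obtain ⟨y, hy⟩ := h4 x (mem_univ _)
      exact ⟨y, hy, hx⟩
    · intro y hy
      obtain ⟨x, hx⟩ := h5 y (mem_univ _)
      exact ⟨x, hx, (hob _ hx).2 hy⟩
  · intro R R' p u u' o ho h hu
    have h3 : ((3 : ℕ) : Ordinal.{0}) + o = o := nat_add ho
    have := hE R R' (lb R u) (lb R' u') univ univ univ univ p ∅ ((3 : ℕ))
      (subset_univ _) (subset_univ _) (fun q hq hb => ?_) o (by rw [h3]; exact h)
    · rw [union_empty] at this
      exact this.subset fun w hw => ⟨hw, mem_univ _⟩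
    · refine ⟨?_, fun w hw => by simp⟩
      rw [union_empty]
      exact piso_lb (hb.mono (by norm_num)) (hq hu) fun w hw => hw.1
  · intro R V q y h hy m x
    obtain ⟨x0, -, hb⟩ := h.back (o' := 4) (Ordinal.natCast_lt_omega0 4) (mem_univ x)
    have e1 : (y, y) ∈ insert (x0, x) q := mem_insert_of_mem _ hy
    have e2 : (x0, x) ∈ insert (x0, x) q := mem_insert _ _
    have hp := hb.piso
    rw [piso_ex] at hp
    have h1 : Q R y m x0 ↔ Q R y m x := hp.2 m (x0, x) e2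
    have hr := hE (ex (Q R y) R) (ex (Q R y) V) R V univ univ univ univ (insert (x0, x) q) ∅ 0
      (subset_univ _) (subset_univ _) (fun q' hq' hb' => ?_) 4 (by rw [zero_add]; exact hb)
    · rw [union_empty] at hr
      have h2 : Q R y m x0 ↔ Q V y m x :=
        q3 (hr.mono (by norm_num)) ⟨e1, mem_univ _⟩ ⟨e2, mem_univ _⟩
      exact h2.symm.trans h1
    · refine ⟨?_, fun w hw => by simp⟩
      rw [union_empty]
      have h3 := hb'.piso
      rw [piso_ex] at h3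
      exact h3.1.mono fun w hw => hw.1
  · intro R R' q u u' s s' h hu hs
    exact du1 (h.mono (by norm_num)) hu hs

/-! ### Measurability -/

theorem ms_ex {p : ℕ → R2 → Prop} (h : ∀ n, MeasurableSet {Y : R2 | p n Y}) :
    MeasurableSet {Y : R2 | ∃ n, p n Y} := by
  rw [Set.setOf_exists]
  exact MeasurableSet.iUnion h

theorem ms_all {p : ℕ → R2 → Prop} (h : ∀ n, MeasurableSet {Y : R2 | p n Y}) :
    MeasurableSet {Y : R2 | ∀ n, p n Y} := by
  rw [Set.setOf_forall]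
  exact MeasurableSet.iInter h

theorem ms_and {p q : R2 → Prop} (hp : MeasurableSet {Y : R2 | p Y})
    (hq : MeasurableSet {Y : R2 | q Y}) : MeasurableSet {Y : R2 | p Y ∧ q Y} := hp.inter hq

theorem ms_or {p q : R2 → Prop} (hp : MeasurableSet {Y : R2 | p Y})
    (hq : MeasurableSet {Y : R2 | q Y}) : MeasurableSet {Y : R2 | p Y ∨ q Y} := hp.union hq

theorem ms_not {p : R2 → Prop} (hp : MeasurableSet {Y : R2 | p Y}) :
    MeasurableSet {Y : R2 | ¬ p Y} := hp.compl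

theorem ms_iff {p q : R2 → Prop} (hp : MeasurableSet {Y : R2 | p Y})
    (hq : MeasurableSet {Y : R2 | q Y}) : MeasurableSet {Y : R2 | p Y ↔ q Y} := by
  have h := ms_or (ms_and hp hq) (ms_and (ms_not hp) (ms_not hq))
  have e : {Y : R2 | p Y ↔ q Y} = {Y : R2 | p Y ∧ q Y ∨ ¬ p Y ∧ ¬ q Y} := by
    ext Y
    simp only [mem_setOf_eq]
    tauto
  rw [e]
  exact h

theorem ms_le (x y : ℕ) : MeasurableSet {Y : R2 | le Y x y} := by
  unfold le
  exact ms_or (MeasurableSet.const _) (meas_lt x y)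

theorem ms_Q (y m z : ℕ) : MeasurableSet {Y : R2 | Q Y y m z} := by
  obtain ⟨k, rfl | rfl | rfl | ⟨i, j, rfl⟩⟩ := idx4 m
  · simp only [Q0]
    exact ms_ex fun w => ms_and (meas_ac _ _ _) (ms_le _ _)
  · simp only [Q1]
    exact ms_ex fun w => ms_and (meas_ac _ _ _) (ms_le _ _)
  · simp only [Q2]
    exact ms_ex fun w => ms_ex fun r => ms_and (meas_ac _ _ _) (ms_and (ms_le _ _) (ms_le _ _))
  · simp only [Q3]
    exact ms_ex fun w => ms_ex fun w' => ms_ex fun r => ms_and (meas_ac _ _ _)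
      (ms_and (meas_ac _ _ _) (ms_and (ms_le _ _) (ms_and (ms_le _ _) (ms_not (ms_le _ _)))))

theorem ms_sl (u z w : ℕ) : MeasurableSet {Y : R2 | sl Y u z w} := by
  unfold sl
  exact ms_all fun m => ms_iff (ms_Q _ _ _) (ms_Q _ _ _)

theorem ms_Du (u s : ℕ) : MeasurableSet {Y : R2 | Du Y u s} := by
  unfold Du
  exact ms_ex fun n => ms_ex fun z => ms_and (meas_ac _ _ _) (ms_le _ _)

theorem ms_In (u s x : ℕ) : MeasurableSet {Y : R2 | In Y u s x} := by
  unfold In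
  exact ms_ex fun n => ms_ex fun m => ms_ex fun z => ms_ex fun w =>
    ms_and (meas_ac _ _ _) (ms_and (meas_ac _ _ _) (ms_and (ms_sl _ _ _)
      (ms_and (ms_le _ _) (ms_not (ms_le _ _)))))

theorem t_MQ : S_MQ := by
  refine ⟨ms_Q, ms_Du, ?_⟩
  intro u v t
  simp only [mem_Ob]
  refine ms_or ?_ (ms_or ?_ ?_)
  · exact ms_ex fun n => meas_ac _ _ _
  · exact ms_ex fun n => ms_ex fun z => ms_ex fun r => ms_and (meas_ac _ _ _)
      (ms_and (ms_le _ _) (ms_and (ms_le _ _) (ms_not (ms_Du _ _))))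
  · exact ms_ex fun s => ms_and (ms_Du _ _) (ms_and (ms_In _ _ _) (ms_In _ _ _))

end Pool.Agent.Y239.TF
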